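import Mathlib

set_option autoImplicit false

namespace Pool.Agent.Results.MP_d7d923_pr.Value

open MeasureTheory Set Filter Topology unitInterval

/-- RED's pure strategies `(a, A)`: the closed interval `[a, a + A] ⊆ [0, 1]` -/
abbrev Red := {c : ℝ × ℝ // 0 ≤ c.1 ∧ 0 ≤ c.2 ∧ c.1 + c.2 ≤ 1}

/-- payoff to RED -/
noncomputable def pay (β : ℝ) (z : Red × I) : ℝ :=
  if z.1.1.1 ≤ z.2 ∧ (z.2 : ℝ) ≤ z.1.1.1 + z.1.1.2 then -β * z.1.1.2 else z.1.1.2

/-- expected payoff under independent mixed strategies -/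
noncomputable def E (β : ℝ) (μ : ProbabilityMeasure Red) (ν : ProbabilityMeasure I) : ℝ :=
  ∫ z, pay β z ∂((μ : Measure Red).prod (ν : Measure I))

/-- `M(β)`, the largest value of `(n - 1 - β) / n ^ 2` over integers `n ≥ 1` -/
noncomputable def M (β : ℝ) : ℝ := sSup {r | ∃ n : ℕ, 1 ≤ n ∧ r = (n - 1 - β) / n ^ 2}

theorem pay_meas (β : ℝ) : Measurable (pay β) := by
  unfold pay
  refine Measurable.ite ?_ (by fun_prop) (by fun_prop)
  exact (measurableSet_le (f := fun z : Red × I => z.1.1.1) (g := fun z => (z.2 : ℝ))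
    (by fun_prop) (by fun_prop)).inter
    (measurableSet_le (f := fun z : Red × I => (z.2 : ℝ)) (g := fun z => z.1.1.1 + z.1.1.2)
    (by fun_prop) (by fun_prop))

theorem pay_bd {β : ℝ} (hβ : 0 ≤ β) (z : Red × I) : ‖pay β z‖ ≤ 1 + β := by
  obtain ⟨h1, h2, h3⟩ := z.1.2
  rw [Real.norm_eq_abs, abs_le]
  unfold pay
  split_ifs <;> constructor <;> nlinarith

theorem pay_int {β : ℝ} (hβ : 0 ≤ β) (m : Measure (Red × I)) [IsFiniteMeasure m] :
    Integrable (pay β) m :=
  Integrable.of_bound (pay_meas β).aestronglyMeasurable _ (Eventually.of_forall (pay_bd hβ))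

theorem E_bd {β : ℝ} (hβ : 0 ≤ β) (μ : ProbabilityMeasure Red) (ν : ProbabilityMeasure I) :
    |E β μ ν| ≤ 1 + β := by
  have := norm_integral_le_of_norm_le_const (μ := (μ : Measure Red).prod (ν : Measure I))
    (Eventually.of_forall (pay_bd hβ))
  simpa [E] using this

theorem M_ge {β : ℝ} (hβ : 0 ≤ β) (n : ℕ) (hn : 1 ≤ n) : (n - 1 - β) / n ^ 2 ≤ M β := by
  refine le_csSup ⟨1, ?_⟩ ⟨n, hn, rfl⟩
  rintro _ ⟨m, hm, rfl⟩
  have : (1 : ℝ) ≤ m := by exact_mod_cast hm
  rw [div_le_one (by positivity)]; nlinarith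

theorem M_pos {β : ℝ} (hβ : 0 ≤ β) : 0 < M β := by
  obtain ⟨n, hn⟩ := exists_nat_gt (1 + β)
  have h1 : 1 ≤ n := by
    have : (1 : ℝ) ≤ n := by linarith
    exact_mod_cast this
  refine lt_of_lt_of_le (div_pos (by linarith) (by positivity)) (M_ge hβ n h1)

noncomputable def G (β x : ℝ) : ℝ := ⨆ n : ℕ, (n - n ^ 2 * M β / x) / (1 + β)

theorem term_le {β : ℝ} (hβ : 0 ≤ β) {x : ℝ} (h0 : 0 < x) (h1 : x ≤ 1) (n : ℕ) :
    (n - n ^ 2 * M β / x) / (1 + β) ≤ 1 := by
  rw [div_le_one (by linarith)]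
  have hM := M_pos hβ
  have h2 : n ^ 2 * M β ≤ n ^ 2 * M β / x := le_div_self (by positivity) h0 h1
  rcases Nat.eq_zero_or_pos n with rfl | hn
  · simp; linarith
  · have := M_ge hβ n hn
    rw [div_le_iff₀ (by positivity)] at this
    linarith

theorem le_G {β : ℝ} (hβ : 0 ≤ β) {x : ℝ} (h0 : 0 < x) (h1 : x ≤ 1) (n : ℕ) :
    (n - n ^ 2 * M β / x) / (1 + β) ≤ G β x :=
  le_ciSup (f := fun n : ℕ => (n - n ^ 2 * M β / x) / (1 + β))
    ⟨1, by rintro _ ⟨m, rfl⟩; exact term_le hβ h0 h1 m⟩ n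

noncomputable def g (β x : ℝ) : ℝ := if x ≤ 0 then 0 else if x < 1 then G β x else 1

theorem G_le_g {β : ℝ} (hβ : 0 ≤ β) {x : ℝ} (h0 : 0 < x) (h1 : x ≤ 1) : G β x ≤ g β x := by
  rw [g, if_neg (not_le.2 h0)]
  split_ifs
  · exact le_rfl
  · exact ciSup_le (term_le hβ h0 h1)

theorem g_mono {β : ℝ} (hβ : 0 ≤ β) : Monotone (g β) := by
  intro x y hxy
  have hM := M_pos hβ
  unfold g
  split_ifs with h1 h2 h3 h4 h5 h6 h7 h8 <;> try linarith
  · simpa using le_G hβ (not_le.1 h2) h3.le 0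
  · refine ciSup_le (fun n => le_trans ?_ (le_G hβ (not_le.1 h5) h6.le n))
    have := not_le.1 h1
    gcongr
  · exact ciSup_le (term_le hβ (not_le.1 h1) h4.le)

theorem g_super {β : ℝ} (hβ : 0 ≤ β) {a A : ℝ} (ha : 0 ≤ a) (hA : 0 < A) (h : a + A ≤ 1) :
    g β a + (1 - M β / A) / (1 + β) ≤ g β (a + A) := by
  refine le_trans ?_ (G_le_g hβ (by linarith) h)
  have hM := M_pos hβ
  rcases ha.eq_or_lt with rfl | ha
  · simpa [g] using le_G hβ hA (by linarith) 1
  · rw [g, if_neg (not_le.2 ha), if_pos (by linarith), ← le_sub_iff_add_le]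
    refine ciSup_le (fun n => ?_)
    rw [le_sub_iff_add_le, ← add_div]
    refine le_trans ?_ (le_G hβ (by linarith) h (n + 1))
    refine div_le_div_of_nonneg_right ?_ (by linarith)
    have : ((n : ℝ) + 1) ^ 2 / (a + A) ≤ n ^ 2 / a + 1 / A := by
      rw [div_add_div _ _ ha.ne' hA.ne', div_le_div_iff₀ (by linarith) (by positivity)]
      nlinarith [sq_nonneg (n * A - a)]
    have := mul_le_mul_of_nonneg_right this hM.le
    push_cast
    ring_nf at this ⊢
    linarith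

theorem blue {β : ℝ} (hβ : 0 ≤ β) : ∃ ν : ProbabilityMeasure I, ∀ μ, E β μ ν ≤ M β := by
  set F := (g_mono hβ).stieltjesFunction with hF
  have hl : ∀ a, Function.leftLim F a ≤ g β a := fun a =>
    le_of_tendsto (F.mono.tendsto_leftLim a) (eventually_nhdsWithin_of_forall
      (fun x hx => (g_mono hβ).rightLim_le hx))
  have hr : ∀ a, g β a ≤ F a := fun a => (g_mono hβ).le_rightLim le_rfl
  have hI : F.measure (Icc 0 1) = 1 := by
    have h1 : F 1 ≤ g β 2 := (g_mono hβ).rightLim_le (by norm_num)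
    have h2 : F (-1) ≤ Function.leftLim F 0 := F.mono.le_leftLim (by norm_num)
    have h3 := hr (-1)
    have h4 := hr 1
    have h5 := hl 0
    norm_num [g] at h1 h3 h4 h5
    rw [F.measure_Icc, show F 1 - Function.leftLim F 0 = 1 by linarith, ENNReal.ofReal_one]
  have hemb := unitInterval.measurableEmbedding_coe
  refine ⟨⟨F.measure.comap Subtype.val, ⟨by rw [hemb.comap_apply, image_univ, Subtype.range_coe]; exact hI⟩⟩, fun μ => ?_⟩
  set ν : Measure I := F.measure.comap Subtype.val with hν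
  haveI : IsProbabilityMeasure ν := ⟨by rw [hν, hemb.comap_apply, image_univ, Subtype.range_coe]; exact hI⟩
  change ∫ z, pay β z ∂((μ : Measure Red).prod ν) ≤ _
  rw [integral_prod _ (pay_int hβ _)]
  have key : ∀ c : Red, ∫ p, pay β (c, p) ∂ν ≤ M β := by
    rintro ⟨⟨a, A⟩, h1, h2, h3⟩
    dsimp only at h1 h2 h3
    set C : Set I := Subtype.val ⁻¹' Icc a (a + A) with hC
    have hCm : MeasurableSet C := measurable_subtype_coe measurableSet_Icc
    have e1 : (fun p : I => pay β (⟨(a, A), h1, h2, h3⟩, p)) =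
        fun p => A - C.indicator (fun _ => (1 + β) * A) p := by
      funext p
      by_cases hp : a ≤ p ∧ (p : ℝ) ≤ a + A
      · rw [indicator_of_mem (show p ∈ C from hp)]; simp only [pay, hp]; simp; ring
      · rw [indicator_of_notMem (show p ∉ C from hp)]; simp only [pay, hp]; simp
    rw [e1, integral_sub (integrable_const _) ((integrable_const _).indicator hCm),
      integral_indicator_const _ hCm]
    simp only [integral_const, probReal_univ, smul_eq_mul, one_mul]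
    have hM := M_pos hβ
    rcases h2.eq_or_lt with rfl | h2
    · simpa using hM.le
    have e2 : ν C = F.measure (Icc a (a + A)) := by
      rw [hν, hemb.comap_apply, hC, image_preimage_eq_of_subset]
      intro x hx
      exact ⟨⟨x, h1.trans hx.1, hx.2.trans h3⟩, rfl⟩
    have e3 : (1 - M β / A) / (1 + β) ≤ ν.real C := by
      rw [Measure.real, e2, F.measure_Icc, ENNReal.toReal_ofReal']
      refine le_max_of_le_left ?_
      linarith [g_super hβ h1 h2 h3, hl a, hr (a + A)]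
    rw [div_le_iff₀ (by linarith)] at e3
    have e4 := mul_le_mul_of_nonneg_right e3 h2.le
    have e5 : (1 - M β / A) * A = A - M β := by field_simp
    nlinarith
  have := integral_mono (μ := (μ : Measure Red)) (pay_int hβ ((μ : Measure Red).prod ν)).integral_prod_left
    (integrable_const (M β)) key
  simpa using this

theorem red {β : ℝ} (hβ : 0 ≤ β) (n : ℕ) (hn : 1 ≤ n) (η : ℝ) (h0 : 0 < η) (h1 : η < 1) :
    ∃ μ : ProbabilityMeasure Red, ∀ ν, (1 - η) * ((n - 1 - β) / n ^ 2) ≤ E β μ ν := by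
  have hn0 : (0 : ℝ) < n := by exact_mod_cast hn
  let c : Fin n → Red := fun i => ⟨(i / n, (1 - η) / n), by positivity,
    div_nonneg (by linarith) hn0.le, by
      have : ((i : ℕ) : ℝ) + 1 ≤ n := by exact_mod_cast i.2
      rw [← add_div, div_le_one hn0]; linarith⟩
  let μ : Measure Red := (n : ENNReal)⁻¹ • ∑ i, Measure.dirac (c i)
  haveI hμ : IsProbabilityMeasure μ := ⟨by
    simp only [μ, Measure.smul_apply, Measure.finsetSum_apply, measure_univ]
    simp only [Finset.sum_const, Finset.card_univ, Fintype.card_fin, nsmul_eq_mul, mul_one,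
      smul_eq_mul]
    exact ENNReal.inv_mul_cancel (by simp; omega) (by simp)⟩
  refine ⟨⟨μ, hμ⟩, fun ν => ?_⟩
  change _ ≤ ∫ z, pay β z ∂(μ.prod ν)
  rw [integral_prod_symm _ (pay_int hβ _)]
  have key : ∀ p : I, (1 - η) * ((n - 1 - β) / n ^ 2) ≤ ∫ r, pay β (r, p) ∂μ := by
    intro p
    rw [integral_smul_measure, integral_finsetSum_measure (fun i _ => integrable_dirac (by simp))]
    simp only [integral_dirac, ENNReal.toReal_inv, ENNReal.toReal_natCast, smul_eq_mul]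
    set T := Finset.univ.filter (fun i : Fin n => ((i : ℕ) : ℝ) / n ≤ p ∧
      (p : ℝ) ≤ i / n + (1 - η) / n) with hT
    have hc : T.card ≤ 1 := by
      refine Finset.card_le_one.2 (fun i hi j hj => ?_)
      obtain ⟨-, a1, a2⟩ := Finset.mem_filter.1 hi
      obtain ⟨-, b1, b2⟩ := Finset.mem_filter.1 hj
      rw [← add_div] at a2 b2
      have c1 := (div_le_div_iff_of_pos_right hn0).1 (a1.trans b2)
      have c2 := (div_le_div_iff_of_pos_right hn0).1 (b1.trans a2)
      have d1 : (i : ℕ) < j + 1 := by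
        have : ((i : ℕ) : ℝ) < j + 1 := by linarith
        exact_mod_cast this
      have d2 : (j : ℕ) < i + 1 := by
        have : ((j : ℕ) : ℝ) < i + 1 := by linarith
        exact_mod_cast this
      exact Fin.ext (by omega)
    have e1 : ∀ i, pay β (c i, p) = (1 - η) / n - if i ∈ T then (1 + β) * ((1 - η) / n) else 0 := by
      intro i
      simp only [pay, c, hT, Finset.mem_filter, Finset.mem_univ, true_and]
      split_ifs <;> ring
    simp only [e1]
    rw [Finset.sum_sub_distrib, Finset.sum_ite_mem, Finset.univ_inter, Finset.sum_const,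
      Finset.sum_const, Finset.card_univ, Fintype.card_fin, nsmul_eq_mul, nsmul_eq_mul]
    have hc' : (T.card : ℝ) ≤ 1 := by exact_mod_cast hc
    have e2 : 0 ≤ (1 + β) * ((1 - η) / n) := mul_nonneg (by linarith) (div_nonneg (by linarith) hn0.le)
    calc _ = (n : ℝ)⁻¹ * (n * ((1 - η) / n) - 1 * ((1 + β) * ((1 - η) / n))) := by
          field_simp; ring
      _ ≤ _ := by gcongr
  have := integral_mono (μ := (ν : Measure I)) (integrable_const _)
    (pay_int hβ (μ.prod (ν : Measure I))).integral_prod_right key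
  simpa using this

theorem result (β : ℝ) (hβ : 0 ≤ β) :
    (⨆ μ, ⨅ ν, E β μ ν) = M β ∧ (⨅ ν, ⨆ μ, E β μ ν) = M β := by
  obtain ⟨ν0, hν0⟩ := blue hβ
  obtain ⟨μ0, -⟩ := red hβ 1 le_rfl (1 / 2) (by norm_num) (by norm_num)
  haveI : Nonempty (ProbabilityMeasure Red) := ⟨μ0⟩
  haveI : Nonempty (ProbabilityMeasure I) := ⟨ν0⟩
  have b1 : ∀ μ, BddBelow (range (fun ν => E β μ ν)) := fun μ =>
    ⟨-(1 + β), by rintro _ ⟨ν, rfl⟩; exact (abs_le.1 (E_bd hβ μ ν)).1⟩
  have b2 : ∀ ν, BddAbove (range (fun μ => E β μ ν)) := fun ν =>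
    ⟨1 + β, by rintro _ ⟨μ, rfl⟩; exact (abs_le.1 (E_bd hβ μ ν)).2⟩
  have l1 : ∀ μ ν, ⨅ ν, E β μ ν ≤ ⨆ μ, E β μ ν := fun μ ν =>
    (ciInf_le (b1 μ) ν).trans (le_ciSup (b2 ν) μ)
  have h1 : (⨆ μ, ⨅ ν, E β μ ν) ≤ ⨅ ν, ⨆ μ, E β μ ν :=
    ciSup_le (fun μ => le_ciInf (fun ν => l1 μ ν))
  have h2 : (⨅ ν, ⨆ μ, E β μ ν) ≤ M β :=
    (ciInf_le ⟨_, by rintro _ ⟨ν, rfl⟩; exact l1 μ0 ν⟩ ν0).trans (ciSup_le hν0)
  have h3 : M β ≤ ⨆ μ, ⨅ ν, E β μ ν := by
    refine csSup_le ⟨_, 1, le_rfl, rfl⟩ ?_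
    rintro _ ⟨n, hn, rfl⟩
    have ht : Tendsto (fun η : ℝ => (1 - η) * ((n - 1 - β) / n ^ 2)) (𝓝[>] 0)
        (𝓝 ((1 - 0) * ((n - 1 - β) / n ^ 2))) :=
      tendsto_nhdsWithin_of_tendsto_nhds (Continuous.tendsto (by fun_prop) 0)
    rw [sub_zero, one_mul] at ht
    refine le_of_tendsto ht ?_
    filter_upwards [Ioo_mem_nhdsGT (zero_lt_one' ℝ)] with η hη
    obtain ⟨μ, hμ⟩ := red hβ n hn η hη.1 hη.2
    exact (le_ciInf hμ).trans (le_ciSup (f := fun μ => ⨅ ν, E β μ ν)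
      ⟨_, by rintro _ ⟨μ, rfl⟩; exact l1 μ ν0⟩ μ)
  exact ⟨le_antisymm (h1.trans h2) h3, le_antisymm h2 (h3.trans h1)⟩

end Pool.Agent.Results.MP_d7d923_pr.Value
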